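import Mathlib.Data.Set.Finite.Basic
import Mathlib.Logic.Function.Iterate
import Mathlib.Order.Monotone.Basic

/-!
# Number of summands of rigid modules: algebras over truncated polynomial rings are enough
-/

universe u v

namespace Pool.Agent.Results.MP_b2fb47_al.DualNumbersSuffice

/-- Finite-dimensional algebras and modules, with the extension `A ↦ A ⊗ B` for a fixed algebra `B` and
the induction `M ↦ M ⊗ B`. -/
structure Algebras where
  /-- the algebras of the problem -/
  Alg : Type u
  /-- the modules over an algebra -/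
  Mod : Alg → Type v
  /-- `M` is `k`-rigid -/
  Rigid : ∀ A, ℕ → Mod A → Prop
  /-- the number of isomorphism classes of indecomposable summands -/
  size : ∀ A, Mod A → ℕ
  /-- the algebra `A ⊗ B` -/
  ext : Alg → Alg
  /-- the module `M ⊗ B` over `A ⊗ B` -/
  ind : ∀ A, Mod A → Mod (ext A)
  rigid_ind : ∀ A k M, Rigid A k M → Rigid (ext A) k (ind A M)
  size_ind : ∀ A M, size A M ≤ size (ext A) (ind A M)
  /-- the algebra is gendo-symmetric -/
  GendoSymmetric : Alg → Prop
  gendoSymmetric_ext : ∀ A, GendoSymmetric A → GendoSymmetric (ext A)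

variable (T : Algebras.{u, v})

/-- The number `o_k(A)` is finite. -/
def OFinite (k : ℕ) (A : T.Alg) : Prop := ∃ n : ℕ, ∀ M : T.Mod A, T.Rigid A k M → T.size A M ≤ n

/-- There is `k ≥ 1` such that `o_k(A)` is finite. -/
def SomeOFinite (A : T.Alg) : Prop := ∃ k : ℕ, 1 ≤ k ∧ OFinite T k A

lemma OFinite.of_ext {k : ℕ} {A : T.Alg} (h : OFinite T k (T.ext A)) : OFinite T k A := by
  obtain ⟨n, hn⟩ := h
  exact ⟨n, fun M hM => (T.size_ind A M).trans (hn _ (T.rigid_ind A k M hM))⟩

lemma SomeOFinite.of_iterate (m : ℕ) : ∀ {A : T.Alg}, SomeOFinite T (T.ext^[m] A) →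
    SomeOFinite T A := by
  induction m with
  | zero => intro A h; exact h
  | succ m ih =>
    intro A h
    rw [Function.iterate_succ_apply] at h
    obtain ⟨k, hk, hf⟩ := ih h
    exact ⟨k, hk, hf.of_ext⟩

/-- For each `m`, both questions of the problem have a positive answer if and only if they have one for
the algebras `A ⊗ B ⊗ ⋯ ⊗ B` (`m` factors `B`). -/
theorem result (m : ℕ) :
    ((∀ A, SomeOFinite T A) ↔ ∀ A, SomeOFinite T (T.ext^[m] A)) ∧
    ((∀ A, T.GendoSymmetric A → SomeOFinite T A) ↔
      ∀ A, T.GendoSymmetric A → SomeOFinite T (T.ext^[m] A)) := by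
  have hG : ∀ m : ℕ, ∀ A, T.GendoSymmetric A → T.GendoSymmetric (T.ext^[m] A) := by
    intro m
    induction m with
    | zero => intro A h; exact h
    | succ m ih =>
      intro A h
      rw [Function.iterate_succ_apply]
      exact ih _ (T.gendoSymmetric_ext A h)
  refine ⟨⟨fun h A => h _, fun h A => (h A).of_iterate T m⟩,
    ⟨fun h A hA => h _ (hG m A hA), fun h A hA => (h A hA).of_iterate T m⟩⟩

end Pool.Agent.Results.MP_b2fb47_al.DualNumbersSuffice
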